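import Pool.Agent.R499.HT.Stm

/-!
# HT-BS: the Banach-Steinhaus bound
-/

set_option autoImplicit false

namespace Pool.Agent.R796.HT

open Pool.Agent.R499.HT
open scoped ComplexConjugate

theorem bdd_of_summable {ι E : Type} [NormedAddCommGroup E] (f : ι → E) (hf : Summable f) :
    ∃ C : ℝ, ∀ S : Finset ι, ‖∑ i ∈ S, f i‖ ≤ C := by
  classical
  have hc : CauchySeq fun s : Finset ι => ∑ i ∈ s, f i := hf.hasSum.cauchySeq
  obtain ⟨s, hs⟩ := cauchySeq_finset_iff_vanishing_norm.1 hc 1 one_pos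
  refine ⟨∑ i ∈ s, ‖f i‖ + 1, fun S => ?_⟩
  have h1 : ∑ i ∈ S, f i = ∑ i ∈ S ∩ s, f i + ∑ i ∈ S \ s, f i := by
    rw [Finset.sum_inter_add_sum_sdiff]
  rw [h1]
  refine (norm_add_le _ _).trans (add_le_add ?_ ?_)
  · refine (norm_sum_le _ _).trans ?_
    exact Finset.sum_le_sum_of_subset_of_nonneg Finset.inter_subset_right
      fun _ _ _ => norm_nonneg _
  · exact (hs _ Finset.sdiff_disjoint).le

/-- the Fourier coefficient as a continuous functional -/
noncomputable def coefL {G : Type} [Group G] (g : G) : (L2 G →L[ℂ] L2 G) →L[ℂ] ℂ :=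
  (innerSL ℂ (bas G g)).comp (ContinuousLinearMap.apply ℂ (L2 G) (bas G 1))

theorem coefL_apply {G : Type} [Group G] (g : G) (x : L2 G →L[ℂ] L2 G) :
    coefL g x = coef x g := by
  unfold coefL coef
  rw [← bas_inner]
  rfl

theorem coef_lam {G : Type} [Group G] [DecidableEq G] (g h : G) :
    coef (lam g) h = if g = h then 1 else 0 := by
  unfold coef
  rw [lam_bas, mul_one, ← bas_inner]
  have h1 := orthonormal_iff_ite.1 (bas G).orthonormal h g
  rw [h1]
  by_cases hgh : g = h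
  · rw [if_pos hgh, if_pos hgh.symm]
  · rw [if_neg hgh, if_neg (Ne.symm hgh)]

/-- the uniform bound, abstractly -/
theorem bs_abs {X : Type} [NormedAddCommGroup X] [NormedSpace ℂ X] (A : Submodule ℂ X)
    [CompleteSpace A] (M : A →L[ℂ] A) {ι : Type} (φ : ι → X →L[ℂ] ℂ) (e : ι → X)
    (h : ∀ x : A, Summable fun i => φ i (M x : X) • e i) :
    ∃ C : ℝ, 0 < C ∧ ∀ (S : Finset ι) (x : A), ‖∑ i ∈ S, φ i (M x : X) • e i‖ ≤ C * ‖x‖ := by
  obtain ⟨T, hTd⟩ : ∃ T : Finset ι → (A →L[ℂ] X), T = fun S =>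
      ∑ i ∈ S, ((φ i).comp (A.subtypeL.comp M)).smulRight (e i) := ⟨_, rfl⟩
  have hT : ∀ (S : Finset ι) (x : A), T S x = ∑ i ∈ S, φ i (M x : X) • e i := by
    intro S x
    rw [hTd]
    simp only [_root_.sum_apply]
    rfl
  have key : ∀ x : A, ∃ C : ℝ, ∀ S, ‖T S x‖ ≤ C := by
    intro x
    obtain ⟨C, hC⟩ := bdd_of_summable _ (h x)
    exact ⟨C, fun S => by rw [hT]; exact hC S⟩
  obtain ⟨C', hC'⟩ := banach_steinhaus key
  refine ⟨|C'| + 1, by positivity, fun S x => ?_⟩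
  rw [← hT]
  refine ((T S).le_opNorm x).trans (mul_le_mul_of_nonneg_right ?_ (norm_nonneg _))
  exact (hC' S).trans ((le_abs_self C').trans (by linarith))

theorem BS : S_BS := by
  classical
  intro G _ d t M hM hx
  have hcomp : CompleteSpace (Cr G) := by
    unfold Cr
    exact (Submodule.isClosed_topologicalClosure _).completeSpace_coe
  have hx' : ∀ x : Cr G, Summable fun g : G =>
      coefL g (M x : L2 G →L[ℂ] L2 G) • (lam g : L2 G →L[ℂ] L2 G) := by
    intro x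
    simp only [coefL_apply]
    exact hx x
  obtain ⟨C, hC0, hC⟩ := bs_abs (Cr G) M (fun g => coefL g) (fun g => lam g) hx'
  refine ⟨C, hC0, fun T S c hST => ?_⟩
  obtain ⟨x, hxd⟩ : ∃ x : Cr G, x = ∑ g ∈ T, c g • (⟨lam g, lam_mem g⟩ : Cr G) := ⟨_, rfl⟩
  have hMx : (M x : L2 G →L[ℂ] L2 G) =
      ∑ g ∈ T, (c g * ((Real.exp (-(t * d g)) : ℝ) : ℂ)) • lam g := by
    rw [hxd, map_sum]
    rw [Submodule.coe_sum]
    refine Finset.sum_congr rfl fun g _ => ?_
    rw [map_smul, hM, smul_smul]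
    rfl
  have hco : ∀ h ∈ T, coefL h (M x : L2 G →L[ℂ] L2 G) =
      c h * ((Real.exp (-(t * d h)) : ℝ) : ℂ) := by
    intro h hh
    rw [hMx, map_sum]
    simp only [map_smul, coefL_apply, coef_lam, smul_eq_mul, mul_ite, mul_one, mul_zero]
    rw [Finset.sum_ite_eq', if_pos hh]
  have h1 := hC S x
  have hTx : ∑ g ∈ S, coefL g (M x : L2 G →L[ℂ] L2 G) • (lam g : L2 G →L[ℂ] L2 G) =
      ∑ g ∈ S, (((Real.exp (-(t * d g)) : ℝ) : ℂ) * c g) • lam g := by
    refine Finset.sum_congr rfl fun g hg => ?_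
    rw [hco g (hST hg), mul_comm]
  have hnx : ‖x‖ = ‖∑ g ∈ T, c g • (lam g : L2 G →L[ℂ] L2 G)‖ := by
    rw [hxd, Submodule.coe_norm, Submodule.coe_sum]
    rfl
  rw [hTx, hnx] at h1
  exact h1

end Pool.Agent.R796.HT
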