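import Pool.Agent.R499.HT.Stm

/-!
# HT-FH: amenable countable groups have the Haagerup property
-/

set_option autoImplicit false

namespace Pool.Agent.R796.HT

open Pool.Agent.R499.HT
open scoped ComplexConjugate

section

variable {G : Type} [Group G]

open Classical in
/-- the number of points of `F` which leave `F` -/
noncomputable def lv (F : Finset G) (g : G) : ℝ := ((F.filter fun h => h * g ∉ F).card : ℝ)

open Classical in
/-- the number of points of `F` which stay in `F` -/
noncomputable def stay (F : Finset G) (g : G) : ℝ := ((F.filter fun h => h * g ∈ F).card : ℝ)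

theorem lv_eq (F : Finset G) (g : G) : lv F g = F.card - stay F g := by
  classical
  unfold lv stay
  have h1 := Finset.card_filter_add_card_filter_not (s := F) (fun h => h * g ∈ F)
  have h2 : (((F.filter fun h => h * g ∈ F).card : ℝ)) +
      ((F.filter fun h => h * g ∉ F).card : ℝ) = F.card := by exact_mod_cast h1
  linarith

theorem lv_nonneg (F : Finset G) (g : G) : 0 ≤ lv F g := Nat.cast_nonneg _

theorem lv_le (F : Finset G) (g : G) : lv F g ≤ F.card := by
  classical
  unfold lv
  exact_mod_cast Finset.card_filter_le _ _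

theorem lv_one (F : Finset G) : lv F 1 = 0 := by
  classical
  unfold lv
  simp

theorem stay_inv (F : Finset G) (g : G) : stay F g⁻¹ = stay F g := by
  classical
  unfold stay
  congr 1
  refine Finset.card_nbij' (fun h => h * g⁻¹) (fun h => h * g) ?_ ?_ ?_ ?_
  · intro h hh
    simp only [Finset.coe_filter, Set.mem_ofPred_eq] at hh ⊢
    exact ⟨hh.2, by simpa using hh.1⟩
  · intro h hh
    simp only [Finset.coe_filter, Set.mem_ofPred_eq] at hh ⊢
    exact ⟨hh.2, by simpa using hh.1⟩
  · intro h _; simp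
  · intro h _; simp

theorem lv_inv (F : Finset G) (g : G) : lv F g⁻¹ = lv F g := by
  rw [lv_eq, lv_eq, stay_inv]

/-- the quadratic form of one term -/
theorem lv_neg (F : Finset G) (n : ℕ) (g : Fin n → G) (b : Fin n → ℂ) (hb : ∑ i, b i = 0) :
    ∑ i, ∑ j, (conj (b i) * b j).re * lv F ((g i)⁻¹ * g j) ≤ 0 := by
  classical
  obtain ⟨P, hP⟩ : ∃ P : Finset G, P = Finset.univ.biUnion fun i => F.image fun h => h * (g i)⁻¹ :=
    ⟨_, rfl⟩
  have hst : ∀ i j, stay F ((g i)⁻¹ * g j) =
      ∑ k ∈ P, (if k * g i ∈ F then (1 : ℝ) else 0) * (if k * g j ∈ F then (1 : ℝ) else 0) := by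
    intro i j
    have h1 : ∀ k, (if k * g i ∈ F then (1 : ℝ) else 0) * (if k * g j ∈ F then (1 : ℝ) else 0) =
        if (k * g i ∈ F ∧ k * g j ∈ F) then (1 : ℝ) else 0 := by
      intro k
      by_cases h2 : k * g i ∈ F
      · by_cases h3 : k * g j ∈ F
        · simp [h2, h3]
        · simp [h2, h3]
      · simp [h2]
    rw [Finset.sum_congr rfl fun k _ => h1 k, ← Finset.sum_filter, Finset.sum_const,
      nsmul_eq_mul, mul_one]
    unfold stay
    congr 1
    refine Finset.card_nbij' (fun h => h * (g i)⁻¹) (fun k => k * g i) ?_ ?_ ?_ ?_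
    · intro h hh
      simp only [Finset.coe_filter, Set.mem_ofPred_eq] at hh ⊢
      refine ⟨?_, by simpa using hh.1, by simpa [mul_assoc] using hh.2⟩
      rw [hP, Finset.mem_biUnion]
      exact ⟨i, Finset.mem_univ _, Finset.mem_image_of_mem _ hh.1⟩
    · intro k hk
      simp only [Finset.coe_filter, Set.mem_ofPred_eq] at hk ⊢
      exact ⟨hk.2.1, by simpa [mul_assoc] using hk.2.2⟩
    · intro h _; simp
    · intro h _; simp
  have h1 : ∑ i, ∑ j, (conj (b i) * b j).re * lv F ((g i)⁻¹ * g j) =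
      F.card * (∑ i, ∑ j, (conj (b i) * b j).re) -
      ∑ k ∈ P, ∑ i, ∑ j, (conj (b i) * b j).re *
        ((if k * g i ∈ F then (1 : ℝ) else 0) * (if k * g j ∈ F then (1 : ℝ) else 0)) := by
    rw [Finset.mul_sum, Finset.sum_comm (s := P), ← Finset.sum_sub_distrib]
    refine Finset.sum_congr rfl fun i _ => ?_
    rw [Finset.mul_sum, Finset.sum_comm (s := P), ← Finset.sum_sub_distrib]
    refine Finset.sum_congr rfl fun j _ => ?_
    rw [lv_eq, hst, mul_sub, Finset.mul_sum]
    ring
  have h2 : ∀ c : Fin n → ℂ, ∑ i, ∑ j, (conj (c i) * c j).re = ‖∑ i, c i‖ ^ 2 := by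
    intro c
    have h3 : conj (∑ i, c i) * (∑ i, c i) = ∑ i, ∑ j, conj (c i) * c j := by
      rw [map_sum, Finset.sum_mul_sum]
    have h4 : (conj (∑ i, c i) * (∑ i, c i)).re = ‖∑ i, c i‖ ^ 2 := by
      rw [mul_comm, Complex.mul_conj, Complex.ofReal_re, Complex.normSq_eq_norm_sq]
    rw [← h4, h3, Complex.re_sum]
    exact Finset.sum_congr rfl fun i _ => (Complex.re_sum _ _).symm
  have h5 : ∀ k, 0 ≤ ∑ i, ∑ j, (conj (b i) * b j).re *
        ((if k * g i ∈ F then (1 : ℝ) else 0) * (if k * g j ∈ F then (1 : ℝ) else 0)) := by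
    intro k
    have h6 := h2 fun i => if k * g i ∈ F then b i else 0
    have h7 : ∑ i, ∑ j, (conj (b i) * b j).re *
        ((if k * g i ∈ F then (1 : ℝ) else 0) * (if k * g j ∈ F then (1 : ℝ) else 0)) =
        ∑ i, ∑ j, (conj (if k * g i ∈ F then b i else 0) * (if k * g j ∈ F then b j else 0)).re := by
      refine Finset.sum_congr rfl fun i _ => Finset.sum_congr rfl fun j _ => ?_
      by_cases hi : k * g i ∈ F
      · by_cases hj : k * g j ∈ F
        · simp [hi, hj]
        · simp [hi, hj]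
      · simp [hi]
    rw [h7, h6]
    positivity
  rw [h1, h2, hb, norm_zero]
  have h8 : 0 ≤ ∑ k ∈ P, ∑ i, ∑ j, (conj (b i) * b j).re *
        ((if k * g i ∈ F then (1 : ℝ) else 0) * (if k * g j ∈ F then (1 : ℝ) else 0)) :=
    Finset.sum_nonneg fun k _ => h5 k
  have h9 : (F.card : ℝ) * (0 : ℝ) ^ 2 = 0 := by ring
  rw [h9]
  linarith

end

theorem FH : S_FH := by
  classical
  intro G _ _ hG
  obtain ⟨e, he⟩ := exists_surjective_nat G
  have hF : ∀ n : ℕ, ∃ F : Finset G, F.Nonempty ∧ ∀ g ∈ (Finset.range (n + 1)).image e,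
      lv F g ≤ (1 / 2) ^ n * (F.card : ℝ) := by
    intro n
    obtain ⟨F, h1, h2⟩ := hG ((Finset.range (n + 1)).image e) ((1 / 2) ^ n) (by positivity)
    refine ⟨F, h1, fun g hg => ?_⟩
    unfold lv
    exact h2 g hg
  choose F hF1 hF2 using hF
  obtain ⟨D, hD⟩ : ∃ D : ℕ → G → ℝ, D = fun n g => lv (F n) g / (F n).card := ⟨_, rfl⟩
  have hFpos : ∀ n, (0 : ℝ) < (F n).card := fun n => by exact_mod_cast (hF1 n).card_pos
  have hD0 : ∀ n g, 0 ≤ D n g := by
    intro n g
    rw [hD]
    exact div_nonneg (lv_nonneg _ _) (hFpos n).le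
  have hD1 : ∀ n g, D n g ≤ 1 := by
    intro n g
    rw [hD]
    simp only []
    rw [div_le_one (hFpos n)]
    exact lv_le _ _
  have hDs : ∀ g, Summable fun n => D n g := by
    intro g
    obtain ⟨k, rfl⟩ := he g
    refine Summable.of_nonneg_of_le (fun n => hD0 n _) (f := fun n => (2 : ℝ) ^ k * (1 / 2) ^ n)
      (fun n => ?_) ((summable_geometric_of_lt_one (by norm_num) (by norm_num)).mul_left _)
    by_cases hkn : k ≤ n
    · have h1 : D n (e k) ≤ (1 / 2) ^ n := by
        rw [hD]
        simp only []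
        rw [div_le_iff₀ (hFpos n)]
        exact hF2 n (e k) (Finset.mem_image_of_mem _ (Finset.mem_range.2 (by omega)))
      have h2 : (1 : ℝ) ≤ 2 ^ k := one_le_pow₀ (by norm_num)
      have h3 : (0 : ℝ) ≤ (1 / 2) ^ n := by positivity
      nlinarith
    · refine (hD1 n _).trans ?_
      push Not at hkn
      have h1 : (2 : ℝ) ^ n * (1 / 2) ^ n = 1 := by
        rw [← mul_pow]
        norm_num
      have h2 : (2 : ℝ) ^ n ≤ 2 ^ k := pow_le_pow_right₀ (by norm_num) hkn.le
      have h3 : (0 : ℝ) ≤ (1 / 2) ^ n := by positivity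
      nlinarith
  refine ⟨fun g => ∑' n, D n g, ⟨?_, ?_, ?_, ?_⟩, ?_⟩
  · intro g
    exact tsum_nonneg fun n => hD0 n g
  · have h1 : ∀ n, D n 1 = 0 := by
      intro n
      rw [hD]
      simp only []
      rw [lv_one, zero_div]
    simp only [h1, tsum_zero]
  · intro g
    refine tsum_congr fun n => ?_
    rw [hD]
    simp only []
    rw [lv_inv]
  · intro n g b hb
    have h1 : (∑ i, ∑ j, conj (b i) * b j * (((∑' k, D k ((g i)⁻¹ * g j) : ℝ)) : ℂ)).re =
        ∑ i, ∑ j, (conj (b i) * b j).re * ∑' k, D k ((g i)⁻¹ * g j) := by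
      rw [Complex.re_sum]
      refine Finset.sum_congr rfl fun i _ => ?_
      rw [Complex.re_sum]
      refine Finset.sum_congr rfl fun j _ => ?_
      rw [Complex.re_mul_ofReal]
    rw [h1]
    have h2 : HasSum (fun k => ∑ i, ∑ j, (conj (b i) * b j).re * D k ((g i)⁻¹ * g j))
        (∑ i, ∑ j, (conj (b i) * b j).re * ∑' k, D k ((g i)⁻¹ * g j)) :=
      hasSum_sum fun i _ => hasSum_sum fun j _ => (hDs _).hasSum.mul_left _
    refine h2.nonpos fun k => ?_
    have h3 := lv_neg (F k) n g b hb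
    have h4 : ∑ i, ∑ j, (conj (b i) * b j).re * D k ((g i)⁻¹ * g j) =
        (∑ i, ∑ j, (conj (b i) * b j).re * lv (F k) ((g i)⁻¹ * g j)) / (F k).card := by
      rw [Finset.sum_div]
      refine Finset.sum_congr rfl fun i _ => ?_
      rw [Finset.sum_div]
      refine Finset.sum_congr rfl fun j _ => ?_
      rw [hD]
      simp only []
      rw [mul_div_assoc]
    rw [h4]
    exact div_nonpos_of_nonpos_of_nonneg h3 (hFpos k).le
  · intro s
    obtain ⟨N, hN⟩ := exists_nat_gt s
    refine ((Finset.range N).biUnion fun n => ((F n) ×ˢ (F n)).image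
      fun q => q.1⁻¹ * q.2).finite_toSet.subset ?_
    intro g hg
    simp only [Set.mem_ofPred_eq] at hg
    have h1 : ∃ n ∈ Finset.range N, D n g < 1 := by
      by_contra h2
      push Not at h2
      have h3 : (N : ℝ) ≤ ∑ n ∈ Finset.range N, D n g := by
        have h4 := Finset.sum_le_sum h2
        simpa using h4
      have h5 : ∑ n ∈ Finset.range N, D n g ≤ ∑' n, D n g :=
        (hDs g).sum_le_tsum _ fun n _ => hD0 n g
      linarith
    obtain ⟨n, hn, hlt⟩ := h1
    rw [Finset.mem_coe, Finset.mem_biUnion]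
    refine ⟨n, hn, ?_⟩
    have h2 : 0 < stay (F n) g := by
      rw [hD] at hlt
      simp only [] at hlt
      rw [div_lt_one (hFpos n), lv_eq] at hlt
      linarith
    unfold stay at h2
    have h3 : 0 < ((F n).filter fun h => h * g ∈ F n).card := by exact_mod_cast h2
    obtain ⟨h, hh⟩ := Finset.card_pos.1 h3
    rw [Finset.mem_filter] at hh
    rw [Finset.mem_image]
    exact ⟨(h, h * g), Finset.mem_product.2 hh, by simp⟩

end Pool.Agent.R796.HT
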