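import Pool.Agent.R499.HT.Stm

/-!
# HT-FOL: the wreath product satisfies Folner's condition
-/

set_option autoImplicit false

namespace Pool.Agent.R796.HT

open Pool.Agent.R499.HT

/-- boxes -/
noncomputable def Bx (n : ℤ) : Finset Z4 := Fintype.piFinset fun _ => Finset.Icc (-n) n

theorem mem_Bx (n : ℤ) (x : Z4) : x ∈ Bx n ↔ ∀ i, -n ≤ x i ∧ x i ≤ n := by
  unfold Bx
  simp [Fintype.mem_piFinset]

theorem card_Bx (n : ℕ) : (Bx n).card = (2 * n + 1) ^ 4 := by
  unfold Bx
  rw [Fintype.card_piFinset, Finset.prod_const, Finset.card_univ, Fintype.card_fin, Int.card_Icc]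
  congr 1
  omega

theorem Bx_mono {m n : ℤ} (h : m ≤ n) : Bx m ⊆ Bx n := by
  intro x hx
  rw [mem_Bx] at hx ⊢
  intro i
  have := hx i
  omega

/-- a point lies in some box -/
theorem exists_Bx (S : Finset Z4) : ∃ m : ℕ, S ⊆ Bx m := by
  classical
  induction S using Finset.induction_on with
  | empty => exact ⟨0, Finset.empty_subset _⟩
  | insert x S _ ih =>
    obtain ⟨m, hm⟩ := ih
    refine ⟨m + ∑ i, (x i).natAbs, ?_⟩
    intro y hy
    rw [Finset.mem_insert] at hy
    rcases hy with rfl | hy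
    · rw [mem_Bx]
      intro i
      have h1 : (y i).natAbs ≤ ∑ i, (y i).natAbs :=
        Finset.single_le_sum (f := fun i => (y i).natAbs) (fun _ _ => Nat.zero_le _)
          (Finset.mem_univ i)
      push_cast
      have h2 : ((y i).natAbs : ℤ) = |y i| := Int.natCast_natAbs _
      have h3 : ((y i).natAbs : ℤ) ≤ ((∑ i, (y i).natAbs : ℕ) : ℤ) := by exact_mod_cast h1
      push_cast at h3
      have h4 := neg_abs_le (y i)
      have h5 := le_abs_self (y i)
      constructor
      · linarith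
      · linarith
    · have h6 : (m : ℤ) ≤ ((m + ∑ i, (x i).natAbs : ℕ) : ℤ) := by
        exact_mod_cast Nat.le_add_right _ _
      exact Bx_mono h6 (hm hy)

/-- the Folner set -/
noncomputable def FF (n : ℕ) : Finset W :=
  ((LR (Bx n)) ×ˢ (Bx n)).map ⟨fun q => ⟨q.1, q.2⟩, by
    intro a b h
    exact Prod.ext (congrArg W.f h) (congrArg W.x h)⟩

theorem mem_FF (n : ℕ) (w : W) : w ∈ FF n ↔ w.f.support ⊆ Bx n ∧ w.x ∈ Bx n := by
  unfold FF
  simp only [Finset.mem_map, Finset.mem_product, mem_LR]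
  constructor
  · rintro ⟨q, hq, rfl⟩
    exact hq
  · intro h
    exact ⟨(w.f, w.x), h, rfl⟩

theorem card_FF (n : ℕ) : (FF n).card = 4 ^ (Bx n).card * (Bx n).card := by
  unfold FF
  rw [Finset.card_map, Finset.card_product, card_LR]

open Classical in
theorem FOL : S_FOL := by
  intro K ε hε
  obtain ⟨m, hm⟩ := exists_Bx ((K.biUnion fun g => g.f.support) ∪ K.image fun g => g.x)
  have hmf : ∀ g ∈ K, g.f.support ⊆ Bx m := by
    intro g hg z hz
    apply hm
    rw [Finset.mem_union]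
    left
    rw [Finset.mem_biUnion]
    exact ⟨g, hg, hz⟩
  have hmx : ∀ g ∈ K, g.x ∈ Bx m := by
    intro g hg
    apply hm
    rw [Finset.mem_union]
    right
    exact Finset.mem_image_of_mem _ hg
  obtain ⟨k, hk⟩ := exists_nat_gt (4 * (m : ℝ) / ε)
  obtain ⟨n, hn⟩ : ∃ n : ℕ, n = m + k := ⟨_, rfl⟩
  refine ⟨FF n, ?_, ?_⟩
  · refine ⟨1, ?_⟩
    rw [mem_FF]
    refine ⟨by simp, ?_⟩
    rw [mem_Bx]
    intro i
    simp
  · intro g hg
    have hsub : (FF n).filter (fun h => h * g ∉ FF n) ⊆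
        ((LR (Bx n)) ×ˢ (Bx n \ Bx k)).map ⟨fun q => (⟨q.1, q.2⟩ : W), by
          intro a b h
          exact Prod.ext (congrArg W.f h) (congrArg W.x h)⟩ := by
      intro h hh
      rw [Finset.mem_filter] at hh
      obtain ⟨h1, h2⟩ := hh
      rw [mem_FF] at h1 h2
      simp only [Finset.mem_map, Finset.mem_product]
      refine ⟨(h.f, h.x), ⟨(mem_LR _ _).2 h1.1, ?_⟩, rfl⟩
      rw [Finset.mem_sdiff]
      refine ⟨h1.2, fun hxk => h2 ⟨?_, ?_⟩⟩
      · rw [W.mul_f]
        refine Finsupp.support_add.trans (Finset.union_subset h1.1 ?_)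
        intro z hz
        rw [Finsupp.mem_support_iff, sh_apply] at hz
        have h3 : -h.x + z ∈ Bx m := hmf g hg (Finsupp.mem_support_iff.2 hz)
        rw [mem_Bx] at h3 hxk ⊢
        intro i
        have h4 := h3 i
        have h5 := hxk i
        have h6 : (-h.x + z) i = -(h.x i) + z i := rfl
        rw [h6] at h4
        rw [hn]
        push_cast
        constructor
        · linarith [h4.1, h5.1]
        · linarith [h4.2, h5.2]
      · rw [W.mul_x]
        have h3 := hmx g hg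
        rw [mem_Bx] at h3 hxk ⊢
        intro i
        have h4 := h3 i
        have h5 := hxk i
        have h6 : (h.x + g.x) i = h.x i + g.x i := rfl
        rw [h6, hn]
        push_cast
        constructor
        · linarith [h4.1, h5.1]
        · linarith [h4.2, h5.2]
    have hcard := Finset.card_le_card hsub
    rw [Finset.card_map, Finset.card_product, card_LR,
      Finset.card_sdiff_of_subset (Bx_mono (by rw [hn]; push_cast; linarith)), card_Bx, card_Bx]
      at hcard
    rw [card_FF, card_Bx]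
    have hkn : (2 * k + 1) ^ 4 ≤ (2 * n + 1) ^ 4 := Nat.pow_le_pow_left (by omega) 4
    have hcard' : (((FF n).filter (fun h => h * g ∉ FF n)).card : ℝ) ≤
        4 ^ ((2 * n + 1) ^ 4) * ((2 * (n : ℝ) + 1) ^ 4 - (2 * (k : ℝ) + 1) ^ 4) := by
      have h7 : (((FF n).filter (fun h => h * g ∉ FF n)).card : ℝ) ≤
          ((4 ^ ((2 * n + 1) ^ 4) * ((2 * n + 1) ^ 4 - (2 * k + 1) ^ 4) : ℕ) : ℝ) := by
        exact_mod_cast hcard
      rw [Nat.cast_mul, Nat.cast_sub hkn] at h7
      push_cast at h7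
      exact h7
    refine hcard'.trans ?_
    push_cast
    have h8 : (2 * (n : ℝ) + 1) ^ 4 - (2 * (k : ℝ) + 1) ^ 4 ≤ ε * (2 * (n : ℝ) + 1) ^ 4 := by
      have hN : (0 : ℝ) < 2 * n + 1 := by positivity
      obtain ⟨u, hu⟩ : ∃ u : ℝ, u = 2 * m / (2 * n + 1) := ⟨_, rfl⟩
      have hu0 : 0 ≤ u := by rw [hu]; positivity
      have hnk : (n : ℝ) = m + k := by rw [hn]; push_cast; ring
      have hu1 : u ≤ 1 := by
        rw [hu, div_le_one hN, hnk]
        have : (0 : ℝ) ≤ k := Nat.cast_nonneg _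
        linarith
      have huk : 2 * (k : ℝ) + 1 = (2 * n + 1) * (1 - u) := by
        rw [hu]
        field_simp
        rw [hnk]
        ring
      have hb := one_add_mul_le_pow (a := -u) (by linarith) 4
      have h4u : 4 * u ≤ ε := by
        rw [hu, mul_div_assoc', div_le_iff₀ hN]
        rw [div_lt_iff₀ hε] at hk
        have hm0 : (0 : ℝ) ≤ m := Nat.cast_nonneg _
        rw [hnk]
        nlinarith
      rw [huk, mul_pow]
      have h9 : 1 - (1 - u) ^ 4 ≤ ε := by
        have : (1 + -u) ^ 4 = (1 - u) ^ 4 := by ring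
        rw [this] at hb
        push_cast at hb
        linarith
      have h10 : 0 < (2 * (n : ℝ) + 1) ^ 4 := by positivity
      nlinarith
    have h11 : (0 : ℝ) ≤ 4 ^ ((2 * n + 1) ^ 4) := by positivity
    calc (4 : ℝ) ^ ((2 * n + 1) ^ 4) * ((2 * (n : ℝ) + 1) ^ 4 - (2 * (k : ℝ) + 1) ^ 4)
        ≤ (4 : ℝ) ^ ((2 * n + 1) ^ 4) * (ε * (2 * (n : ℝ) + 1) ^ 4) :=
          mul_le_mul_of_nonneg_left h8 h11
      _ = ε * ((4 : ℝ) ^ ((2 * n + 1) ^ 4) * (2 * (n : ℝ) + 1) ^ 4) := by ring

end Pool.Agent.R796.HT
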