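import Pool.Agent.R499.HT.Stm

/-!
# HT-REC: group ring expansion over the paths
-/

set_option autoImplicit false

namespace Pool.Agent.R796.HT

open Pool.Agent.R499.HT

theorem sh_zero (f : Lp) : sh 0 f = f := by
  ext b
  simp

theorem sh_of_zero (x : Z4) : sh x 0 = 0 := by
  ext b
  simp

theorem U_mul (x y : Z4) : U x * U y = U (x + y) := by
  unfold U
  rw [MonoidAlgebra.single_mul_single, one_mul]
  have h1 : up x * up y = up (x + y) := by
    apply W.ext
    · change (0 : Lp) + sh x 0 = 0
      rw [sh_of_zero, add_zero]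
    · rfl
  rw [h1]

/-- the lamp configuration as a group element -/
noncomputable def lp0 (f : Lp) : MonoidAlgebra ℝ W := MonoidAlgebra.single (⟨f, 0⟩ : W) (1 : ℝ)

theorem mm_eq (R : Finset Z4) : mm R = ((4 : ℝ) ^ R.card)⁻¹ • ∑ f ∈ LR R, lp0 f := rfl

theorem lp0_mul (f g : Lp) : lp0 f * lp0 g = lp0 (f + g) := by
  unfold lp0
  rw [MonoidAlgebra.single_mul_single, one_mul]
  have h1 : (⟨f, 0⟩ : W) * ⟨g, 0⟩ = ⟨f + g, 0⟩ := by
    apply W.ext
    · change f + sh 0 g = f + g
      rw [sh_zero]
    · change (0 : Z4) + 0 = 0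
      rw [add_zero]
  rw [h1]

theorem sum_LR_single (y : Z4) {M : Type} [AddCommMonoid M] (F : Lp → M) :
    ∑ g ∈ LR {y}, F g = ∑ a : ZMod 4, F (Finsupp.single y a) := by
  refine Finset.sum_nbij' (fun g => g y) (fun a => Finsupp.single y a) ?_ ?_ ?_ ?_ ?_
  · intro g _; exact Finset.mem_univ _
  · intro a _
    rw [mem_LR]
    exact Finsupp.support_single_subset
  · intro g hg
    rw [mem_LR] at hg
    exact (Finsupp.support_subset_singleton.1 hg).symm
  · intro a _
    simp
  · intro g hg
    rw [mem_LR] at hg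
    congr 1
    exact Finsupp.support_subset_singleton.1 hg

theorem sum_LR_insert (R : Finset Z4) (y : Z4) (hy : y ∉ R) {M : Type} [AddCommMonoid M]
    (F : Lp → M) :
    ∑ h ∈ LR (insert y R), F h = ∑ f ∈ LR R, ∑ a : ZMod 4, F (f + Finsupp.single y a) := by
  rw [← Finset.sum_product']
  refine Finset.sum_nbij' (fun h => (h.erase y, h y)) (fun q => q.1 + Finsupp.single y q.2)
    ?_ ?_ ?_ ?_ ?_
  · intro h hh
    rw [mem_LR] at hh
    rw [Finset.mem_product]
    refine ⟨?_, Finset.mem_univ _⟩
    rw [mem_LR, Finsupp.support_erase]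
    intro z hz
    rw [Finset.mem_erase] at hz
    have := hh hz.2
    rw [Finset.mem_insert] at this
    exact this.resolve_left hz.1
  · intro q hq
    rw [Finset.mem_product] at hq
    have h1 := (mem_LR _ _).1 hq.1
    rw [mem_LR]
    refine Finsupp.support_add.trans (Finset.union_subset ?_ ?_)
    · exact h1.trans (Finset.subset_insert _ _)
    · exact Finsupp.support_single_subset.trans (by simp)
  · intro h _
    exact Finsupp.erase_add_single y h
  · intro q hq
    rw [Finset.mem_product] at hq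
    have h1 := (mem_LR _ _).1 hq.1
    have h2 : q.1 y = 0 := by
      by_contra h3
      exact hy (h1 (Finsupp.mem_support_iff.2 h3))
    have h3 : (q.1 + Finsupp.single y q.2).erase y = q.1 := by
      rw [Finsupp.erase_add, Finsupp.erase_single, add_zero]
      exact Finsupp.erase_of_notMem_support (Finsupp.notMem_support_iff.2 h2)
    have h4 : (q.1 + Finsupp.single y q.2) y = q.2 := by simp [h2]
    exact Prod.ext h3 h4
  · intro h _
    rw [Finsupp.erase_add_single]

theorem card_LR_one (y : Z4) : (LR {y}).card = 4 := by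
  rw [card_LR, Finset.card_singleton, pow_one]

theorem mm_mul (R : Finset Z4) (y : Z4) : mm R * mm {y} = mm (insert y R) := by
  rw [mm_eq, mm_eq, mm_eq, smul_mul_smul_comm, Finset.sum_mul_sum, Finset.card_singleton, pow_one]
  simp only [lp0_mul]
  by_cases hy : y ∈ R
  · rw [Finset.insert_eq_of_mem hy, Finset.sum_comm]
    have h1 : ∀ g ∈ LR {y}, ∑ f ∈ LR R, lp0 (f + g) = ∑ f ∈ LR R, lp0 f := by
      intro g hg
      have hgR : g.support ⊆ R := by
        rw [mem_LR] at hg
        exact hg.trans (by simpa using hy)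
      refine Finset.sum_nbij' (fun f => f + g) (fun f => f - g) ?_ ?_ ?_ ?_ ?_
      · intro f hf
        rw [mem_LR] at hf ⊢
        exact Finsupp.support_add.trans (Finset.union_subset hf hgR)
      · intro f hf
        rw [mem_LR] at hf ⊢
        exact Finsupp.support_sub.trans (Finset.union_subset hf hgR)
      · intro f _; exact add_sub_cancel_right f g
      · intro f _; exact sub_add_cancel f g
      · intro f _; rfl
    rw [Finset.sum_congr rfl h1, Finset.sum_const, card_LR_one, ← Nat.cast_smul_eq_nsmul ℝ,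
      smul_smul]
    congr 1
    push_cast
    field_simp
  · rw [sum_LR_insert R y hy, Finset.card_insert_of_notMem hy, pow_succ, mul_inv]
    exact congrArg _ (Finset.sum_congr rfl fun f _ => sum_LR_single y fun g => lp0 (f + g))

theorem U_mm (x : Z4) : U x * mm {0} = mm {x} * U x := by
  rw [mm_eq, mm_eq, Algebra.mul_smul_comm, Algebra.smul_mul_assoc, Finset.card_singleton,
    Finset.card_singleton, sum_LR_single, sum_LR_single, Finset.mul_sum, Finset.sum_mul]
  refine congrArg _ (Finset.sum_congr rfl fun a _ => ?_)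
  unfold U lp0
  rw [MonoidAlgebra.single_mul_single, MonoidAlgebra.single_mul_single]
  have h1 : up x * (⟨Finsupp.single 0 a, 0⟩ : W) = ⟨Finsupp.single x a, 0⟩ * up x := by
    apply W.ext
    · change (0 : Lp) + sh x (Finsupp.single 0 a) = Finsupp.single x a + sh 0 0
      rw [sh_of_zero, add_zero, zero_add]
      unfold sh
      rw [Finsupp.equivMapDomain_single]
      simp
    · change x + 0 = 0 + x
      rw [add_zero, zero_add]
  rw [h1]

theorem pair_mm_U (d : W → ℝ) (R : Finset Z4) (x : Z4) : pair d (mm R * U x) = AV d R x := by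
  rw [mm_eq, Algebra.smul_mul_assoc, map_smul, Finset.sum_mul, map_sum, smul_eq_mul]
  unfold AV
  rw [div_eq_inv_mul]
  refine congrArg _ (Finset.sum_congr rfl fun f _ => ?_)
  unfold lp0 U
  rw [MonoidAlgebra.single_mul_single, one_mul, pair_single, one_mul]
  have h1 : (⟨f, 0⟩ : W) * up x = ⟨f, x⟩ := by
    apply W.ext
    · change f + sh 0 0 = f
      rw [sh_of_zero, add_zero]
    · change (0 : Z4) + x = x
      rw [zero_add]
  rw [h1]

theorem step (R : Finset Z4) (x : Z4) : mm R * U x * nu =
    (256 : ℝ)⁻¹ • ∑ s : Fin 4 → Bool, ∑ s' : Fin 4 → Bool,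
      mm (insert (x + st s) R) * U (x + st s + st s') := by
  unfold nu sg
  have h1 : mm R * U x * (((16 : ℝ)⁻¹ • ∑ s : Fin 4 → Bool, U (st s)) * mm {0} *
      ((16 : ℝ)⁻¹ • ∑ s : Fin 4 → Bool, U (st s))) =
      ((16 : ℝ)⁻¹ * (16 : ℝ)⁻¹) • ((∑ s : Fin 4 → Bool, mm R * (U x * U (st s)) * mm {0}) *
        ∑ s : Fin 4 → Bool, U (st s)) := by
    rw [Algebra.smul_mul_assoc, smul_mul_smul_comm, Algebra.mul_smul_comm, ← Finset.sum_mul,
      ← Finset.mul_sum, ← Finset.mul_sum]
    simp only [mul_assoc]
  rw [h1]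
  have h2 : ((16 : ℝ)⁻¹ * (16 : ℝ)⁻¹) = (256 : ℝ)⁻¹ := by norm_num
  rw [h2, Finset.sum_mul_sum]
  refine congrArg _ (Finset.sum_congr rfl fun s _ => Finset.sum_congr rfl fun s' _ => ?_)
  rw [U_mul, mul_assoc (mm R), U_mm, ← mul_assoc (mm R), mm_mul, mul_assoc, U_mul]

theorem REC : S_REC := by
  intro d n
  induction n with
  | zero =>
    intro R x
    rw [pow_zero, mul_one, Function.iterate_zero, id_eq, pair_mm_U]
  | succ n ih =>
    intro R x
    rw [pow_succ', ← mul_assoc, step, Function.iterate_succ_apply', Algebra.smul_mul_assoc,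
      map_smul, Finset.sum_mul, map_sum, smul_eq_mul]
    unfold TT
    rw [div_eq_inv_mul]
    refine congrArg _ (Finset.sum_congr rfl fun s _ => ?_)
    rw [Finset.sum_mul, map_sum]
    exact Finset.sum_congr rfl fun s' _ => ih _ _

end Pool.Agent.R796.HT
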